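import Mathlib

namespace Pool.Agent.Results.MP_276eaf_co.Q2

/-- Permutations of size `n`. -/
abbrev P (n : ℕ) := Equiv.Perm (Fin n)

/-- `f` picks a subsequence of `β` that is order-isomorphic to `α`. -/
def Emb {k n : ℕ} (α : P k) (β : P n) (f : Fin k → Fin n) : Prop :=
  StrictMono f ∧ ∀ i j, α i < α j ↔ β (f i) < β (f j)

def Avoids {k n : ℕ} (β : P n) (α : P k) : Prop := ¬ ∃ f, Emb α β f

def p1423 : P 4 := ⟨![0, 3, 1, 2], ![0, 2, 3, 1], by decide, by decide⟩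

def p2413 : P 4 := ⟨![1, 3, 0, 2], ![2, 0, 3, 1], by decide, by decide⟩

def p3142 : P 4 := ⟨![2, 0, 3, 1], ![1, 3, 0, 2], by decide, by decide⟩

/-- `π` is unavoidable in `Av(1423)`. -/
def Unavoidable {k : ℕ} (π : P k) : Prop :=
  Avoids π p1423 ∧ ∀ (n : ℕ) (ρ : P n), Avoids ρ p1423 → ∃ (m : ℕ) (τ : P m), Avoids τ p1423 ∧
    ∀ c : Fin m → Bool, (∃ f, Emb π τ f ∧ ∀ i, c (f i) = true) ∨
      (∃ f, Emb ρ τ f ∧ ∀ i, c (f i) = false)

theorem std {Q : Type} [Fintype Q] (X Y : Q → List ℤ) (hX : Function.Injective X)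
    (hY : Function.Injective Y) : ∃ (m : ℕ) (τ : P m) (g : Q ≃ Fin m),
      (∀ p q, g p < g q ↔ X p < X q) ∧ ∀ p q, τ (g p) < τ (g q) ↔ Y p < Y q := by
  have key : ∀ Z : Q → List ℤ, Function.Injective Z → ∃ g : Q ≃ Fin (Fintype.card Q),
      ∀ p q, g p < g q ↔ Z p < Z q := by
    intro Z hZ
    let e := (Fintype.equivFin Q).symm
    have h := (Tuple.monotone_sort (Z ∘ e)).strictMono_of_injective
      ((hZ.comp e.injective).comp (Equiv.injective _))
    refine ⟨e.symm.trans (Tuple.sort (Z ∘ e)).symm, fun p q => ?_⟩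
    rw [← h.lt_iff_lt]
    simp
  obtain ⟨g, hg⟩ := key X hX
  obtain ⟨k, hk⟩ := key Y hY
  exact ⟨_, g.symm.trans k, g, hg, fun p q => by simp [hk]⟩

theorem emb4 {m : ℕ} {τ : P m} (α : P 4) (f : Fin 4 → Fin m) (h1 : f 0 < f 1) (h2 : f 1 < f 2)
    (h3 : f 2 < f 3) (g1 : τ (f (α.symm 0)) < τ (f (α.symm 1)))
    (g2 : τ (f (α.symm 1)) < τ (f (α.symm 2))) (g3 : τ (f (α.symm 2)) < τ (f (α.symm 3))) :
    Emb α τ f := by
  have a : StrictMono fun i => τ (f (α.symm i)) := Fin.strictMono_iff_lt_succ.2 fun i => by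
    fin_cases i <;> assumption
  refine ⟨Fin.strictMono_iff_lt_succ.2 fun i => by fin_cases i <;> assumption, fun i j => ?_⟩
  rw [← a.lt_iff_lt]
  simp

inductive Pt (n : ℕ)
  | E (i w : Fin n)
  | G (i w : Fin n)
  | F (i w : Fin n)
  | H (i : Fin n)
  | L (i : Fin n)
  deriving DecidableEq, Fintype

open Pt

variable {n : ℕ} (r mu la : Fin n → ℤ)

def X : Pt n → List ℤ
  | E i w => [la i, 0, - r i, w.1]
  | G i w => [i.1, 1, 0, w.1]
  | F i w => [i.1, 3, 0, w.1]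
  | H i => [i.1, 2, 0, 0]
  | L i => [i.1, 4, 0, 0]

def Y : Pt n → List ℤ
  | E i w => [r i, 2, 0, r w]
  | G i w => [mu i, 0, - 2 * i.1, r w]
  | F i w => [mu i, 0, - 2 * i.1 - 1, r w]
  | H i => [r i, 3, 0, 0]
  | L i => [r i, 1, 0, 0]

theorem lt4 (a b c d a' b' c' d' : ℤ) : [a, b, c, d] < [a', b', c', d'] ↔
    a < a' ∨ (a = a' ∧ (b < b' ∨ (b = b' ∧ (c < c' ∨ (c = c' ∧ d < d'))))) := by
  simp [List.cons_lt_cons_iff]

def slot : Pt n → Option (Fin 3 × Fin n)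
  | E i _ => some (0, i)
  | G i _ => some (1, i)
  | F i _ => some (2, i)
  | H _ => none
  | L _ => none

def ix : Pt n → Fin n
  | E _ w => w
  | G _ w => w
  | F _ w => w
  | H i => i
  | L i => i

structure Good : Prop where
  inj : ∀ i j, r i = r j → i.1 = j.1
  m1 : ∀ i k : Fin n, k.1 ≤ i.1 → mu i ≤ r k
  m2 : ∀ i, ∃ j : Fin n, j.1 ≤ i.1 ∧ r j = mu i
  l1 : ∀ i, ∃ j : Fin n, la i = j.1 ∧ j.1 ≤ i.1 ∧ r j ≤ r i
  l2 : ∀ i k : Fin n, k.1 < la i → r i < r k

variable {r mu la}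

theorem s1 (h : Good r mu la) (p q : Pt n) (hq : slot q ≠ none) (h1 : X r la p < X r la q)
    (h2 : Y r mu p < Y r mu q) : slot p = slot q := by
  rcases q with ⟨j, v⟩ | ⟨j, v⟩ | ⟨j, v⟩ | j | j <;> try exact absurd rfl hq
  all_goals
    rcases p with ⟨i, w⟩ | ⟨i, w⟩ | ⟨i, w⟩ | i | i <;>
    · obtain ⟨a, a1, a2⟩ := h.m2 i
      obtain ⟨b, b1, b2⟩ := h.m2 j
      obtain ⟨c, c1, c2, c3⟩ := h.l1 i
      obtain ⟨d, d1, d2, d3⟩ := h.l1 j
      have := h.inj i j
      have := h.m1 j i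
      have := h.m1 j a
      have := h.m1 j c
      have := h.l2 j i
      have := h.l2 j a
      have := h.l2 j c
      simp only [X, Y, lt4] at h1 h2
      simp only [slot, Option.some.injEq, Prod.mk.injEq, Fin.ext_iff, true_and, reduceCtorEq]
      omega

theorem s2 (h : Good r mu la) (a b c : Pt n) (ha : slot a ≠ none) (hab : slot a = slot b)
    (h1 : (X r la a < X r la c ∧ X r la c < X r la b) ∨ (Y r mu a < Y r mu c ∧ Y r mu c < Y r mu b)) :
    slot c = slot a := by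
  rcases a with ⟨i, w⟩ | ⟨i, w⟩ | ⟨i, w⟩ | i | i <;> try exact absurd rfl ha
  all_goals
    rcases b with ⟨j, v⟩ | ⟨j, v⟩ | ⟨j, v⟩ | j | j <;>
      simp only [slot, Option.some.injEq, Prod.mk.injEq, true_and, reduceCtorEq] at hab
  all_goals first
    | exact absurd hab.1 (by decide)
    | subst hab
      rcases c with ⟨k, u⟩ | ⟨k, u⟩ | ⟨k, u⟩ | k | k <;>
      · have := h.inj k i
        simp only [X, Y, lt4] at h1
        simp only [slot, Option.some.injEq, Prod.mk.injEq, Fin.ext_iff, true_and, reduceCtorEq]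
        omega

theorem s3 (_h : Good r mu la) (a b : Pt n) (ha : slot a ≠ none) (hab : slot a = slot b) :
    (X r la a < X r la b → (ix a).1 < (ix b).1) ∧ (Y r mu a < Y r mu b → r (ix a) < r (ix b)) := by
  rcases a with ⟨i, w⟩ | ⟨i, w⟩ | ⟨i, w⟩ | i | i <;> try exact absurd rfl ha
  all_goals
    rcases b with ⟨j, v⟩ | ⟨j, v⟩ | ⟨j, v⟩ | j | j <;>
      simp only [slot, Option.some.injEq, Prod.mk.injEq, true_and, reduceCtorEq] at hab
  all_goals first
    | exact absurd hab.1 (by decide)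
    | subst hab
      simp only [X, Y, lt4, ix]
      omega

theorem no (h : Good r mu la)
    (hr : ∀ a b c d : Fin n, a.1 < b.1 → b.1 < c.1 → c.1 < d.1 → r a < r c → r c < r d →
      ¬ r d < r b) (a b c d : Pt n) (x1 : X r la a < X r la b) (x2 : X r la b < X r la c)
    (x3 : X r la c < X r la d) (y1 : Y r mu a < Y r mu c) (y2 : Y r mu c < Y r mu d)
    (y3 : Y r mu d < Y r mu b) : False := by
  have hb : slot b = none := by
    by_contra hb
    have e1 := s1 h a b hb x1 (y1.trans (y2.trans y3))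
    have ha : slot a ≠ none := e1 ▸ hb
    have e2 := s2 h a b c ha e1 (Or.inr ⟨y1, y2.trans y3⟩)
    have e3 := s2 h a b d ha e1 (Or.inr ⟨y1.trans y2, y3⟩)
    exact hr _ _ _ _ ((s3 h a b ha e1).1 x1) ((s3 h b c hb (e1.symm.trans e2.symm)).1 x2)
      ((s3 h c d (e2 ▸ ha) (e2.trans e3.symm)).1 x3) ((s3 h a c ha e2.symm).2 y1)
      ((s3 h c d (e2 ▸ ha) (e2.trans e3.symm)).2 y2) ((s3 h d b (e3 ▸ ha) (e3.trans e1)).2 y3)
  have hc : slot c = none := by
    by_contra hc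
    have e1 := s1 h a c hc (x1.trans x2) y1
    exact (e1 ▸ hc : slot a ≠ none) ((s2 h a c b (e1 ▸ hc) e1 (Or.inl ⟨x1, x2⟩)).symm.trans hb)
  have hd : slot d = none := by
    by_contra hd
    have e1 := s1 h a d hd (x1.trans (x2.trans x3)) (y1.trans y2)
    exact (e1 ▸ hd : slot a ≠ none)
      ((s2 h a d b (e1 ▸ hd) e1 (Or.inl ⟨x1, x2.trans x3⟩)).symm.trans hb)
  have key : (ix b).1 < (ix c).1 ∧ (ix c).1 < (ix d).1 ∧ r (ix c) < r (ix d) ∧
      r (ix d) < r (ix b) := by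
    have := h.inj (ix b) (ix c)
    have := h.inj (ix c) (ix d)
    have := h.inj (ix b) (ix d)
    have e : ∀ i j : Fin n, i.1 = j.1 → r i = r j := fun i j e => by rw [Fin.ext e]
    have := e (ix b) (ix c)
    have := e (ix c) (ix d)
    clear x1 y1
    rcases b with _ | _ | _ | i | i <;> try exact (Option.some_ne_none _ hb).elim
    all_goals rcases c with _ | _ | _ | j | j <;> try exact (Option.some_ne_none _ hc).elim
    all_goals rcases d with _ | _ | _ | k | k <;> try exact (Option.some_ne_none _ hd).elim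
    all_goals
      simp only [X, Y, lt4, ix] at *
      omega
  obtain ⟨j, j1, j2⟩ : ∃ j : Fin n, j.1 ≤ (ix b).1 ∧ r j ≤ r (ix c) := by
    clear x2 x3 y2 y3 key
    rcases b with _ | _ | _ | i | i <;> try exact (Option.some_ne_none _ hb).elim
    all_goals rcases c with _ | _ | _ | j | j <;> try exact (Option.some_ne_none _ hc).elim
    all_goals
      rcases a with ⟨k, w⟩ | ⟨k, w⟩ | ⟨k, w⟩ | k | k
      · obtain ⟨c, c1, c2, c3⟩ := h.l1 k
        exact ⟨c, by simp only [X, lt4, ix] at *; omega, by simp only [Y, lt4, ix] at *; omega⟩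
      · obtain ⟨c, c1, c2⟩ := h.m2 k
        exact ⟨c, by simp only [X, lt4, ix] at *; omega, by simp only [Y, lt4, ix] at *; omega⟩
      · obtain ⟨c, c1, c2⟩ := h.m2 k
        exact ⟨c, by simp only [X, lt4, ix] at *; omega, by simp only [Y, lt4, ix] at *; omega⟩
      · exact ⟨k, by simp only [X, lt4, ix] at *; omega, by simp only [Y, lt4, ix] at *; omega⟩
      · exact ⟨k, by simp only [X, lt4, ix] at *; omega, by simp only [Y, lt4, ix] at *; omega⟩
  have e : j.1 = (ix b).1 → r j = r (ix b) := fun e => by rw [Fin.ext e]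
  have := h.inj j (ix c)
  exact hr j (ix b) (ix c) (ix d) (by omega) key.1 key.2.1 (by omega) key.2.2.1 key.2.2.2

theorem good (ρ : P n) : ∃ mu la, Good (fun i => ((ρ i).1 : ℤ)) mu la := by
  have h1 : ∀ i : Fin n, ∃ j : Fin n, j ≤ i ∧ ∀ k ≤ i, ρ j ≤ ρ k := fun i => by
    obtain ⟨j, a, b⟩ := (Finset.Iic i).exists_min_image ρ ⟨i, by simp⟩
    exact ⟨j, by simpa using a, fun k hk => b k (by simpa using hk)⟩
  have h2 : ∀ i : Fin n, ∃ j : Fin n, ρ j ≤ ρ i ∧ ∀ k, ρ k ≤ ρ i → j ≤ k := fun i => by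
    obtain ⟨j, a, b⟩ := (Finset.univ.filter fun k => ρ k ≤ ρ i).exists_min_image id ⟨i, by simp⟩
    exact ⟨j, by simpa using a, fun k hk => b k (by simpa using hk)⟩
  choose m m1 m2 using h1
  choose l l1 l2 using h2
  refine ⟨fun i => (ρ (m i)).1, fun i => (l i).1, fun i j e => ?_, fun i k e => ?_,
    fun i => ⟨m i, m1 i, rfl⟩, fun i => ⟨l i, rfl, l2 i i le_rfl, ?_⟩, fun i k e => ?_⟩
  · exact congrArg _ (ρ.injective (Fin.ext (by exact_mod_cast e)))
  · exact_mod_cast m2 i k e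
  · exact_mod_cast l1 i
  · by_contra hc
    have := l2 i k (by rw [Fin.le_def]; omega)
    rw [Fin.le_def] at this
    omega

theorem main (ρ : P n) (hρ : Avoids ρ p1423) : ∃ (m : ℕ) (τ : P m), Avoids τ p1423 ∧
    ∀ c : Fin m → Bool, ((∃ f, Emb p2413 τ f ∧ ∀ i, c (f i) = true) ∧
      ∃ f, Emb p3142 τ f ∧ ∀ i, c (f i) = true) ∨ (∃ f, Emb ρ τ f ∧ ∀ i, c (f i) = false) := by
  obtain ⟨mu, la, h⟩ := good ρ
  obtain ⟨r, hr⟩ : ∃ r : Fin n → ℤ, r = fun i => ((ρ i).1 : ℤ) := ⟨_, rfl⟩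
  rw [← hr] at h
  have hr' : ∀ i j, ρ i < ρ j ↔ r i < r j := fun i j => by simp [hr]
  have ri : ∀ i j, r i = r j ↔ i = j := fun i j => ⟨fun e => Fin.ext (h.inj i j e), congrArg r⟩
  obtain ⟨m, τ, g, gx, gy⟩ := std (X r la) (Y r mu)
    (by rintro (_ | _ | _ | _ | _) (_ | _ | _ | _ | _) e <;> simp_all [X, Fin.ext_iff])
    (by
      rintro (_ | _ | _ | _ | _) (_ | _ | _ | _ | _) e <;> simp_all [Y, Fin.ext_iff] <;> omega)
  refine ⟨m, τ, ?_, fun c => ?_⟩
  · rintro ⟨f, f1, f2⟩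
    refine no h (fun a b c d a1 a2 a3 a4 a5 a6 => hρ ⟨![a, b, c, d], emb4 _ _ a1 a2 a3
      ((hr' _ _).2 a4) ((hr' _ _).2 a5) ((hr' _ _).2 a6)⟩)
      (g.symm (f 0)) (g.symm (f 1)) (g.symm (f 2)) (g.symm (f 3)) ?_ ?_ ?_ ?_ ?_ ?_ <;>
      simp only [← gx, ← gy, Equiv.apply_symm_apply, ← f2, f1.lt_iff_lt] <;> decide
  by_contra hn
  rw [not_or] at hn
  have blue : ∀ s : Fin n → Pt n, (∀ i j, i < j → X r la (s i) < X r la (s j)) →
      (∀ i j, r i < r j ↔ Y r mu (s i) < Y r mu (s j)) → ∃ i, c (g (s i)) = true := by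
    intro s a b
    by_contra hc
    push Not at hc
    exact hn.2 ⟨g ∘ s, ⟨fun i j e => (gx _ _).2 (a i j e),
      fun i j => (hr' i j).trans ((b i j).trans (gy _ _).symm)⟩, fun i => by simpa using hc i⟩
  obtain ⟨i, hi⟩ := blue (fun i => if c (g (H i)) = true then L i else H i)
    (fun i j e => by
      rw [Fin.lt_def] at e
      split_ifs <;> simp only [X, lt4] <;> omega)
    (fun i j => by
      by_cases e : i = j
      · simp [e]
      · have := (ri i j).not.2 e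
        split_ifs <;> simp only [Y, lt4] <;> omega)
  have hH : c (g (H i)) = true := by
    by_contra e
    rw [if_neg e] at hi
    exact e hi
  rw [if_pos hH] at hi
  obtain ⟨u, hu⟩ := blue (E i)
    (fun a b e => by rw [Fin.lt_def] at e; simp only [X, lt4, true_and]; omega)
    (fun a b => by simp only [Y, lt4, true_and]; omega)
  obtain ⟨v, hv⟩ := blue (G i)
    (fun a b e => by rw [Fin.lt_def] at e; simp only [X, lt4, true_and]; omega)
    (fun a b => by simp only [Y, lt4, true_and]; omega)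
  obtain ⟨w, hw⟩ := blue (F i)
    (fun a b e => by rw [Fin.lt_def] at e; simp only [X, lt4, true_and]; omega)
    (fun a b => by simp only [Y, lt4, true_and]; omega)
  have := h.m1 i i le_rfl
  obtain ⟨j, j1, j2, -⟩ := h.l1 i
  refine hn.1 ⟨⟨g ∘ ![G i v, H i, F i w, L i], emb4 _ _ ((gx _ _).2 ?_) ((gx _ _).2 ?_)
    ((gx _ _).2 ?_) ((gy (F i w) (G i v)).2 ?_) ((gy (G i v) (L i)).2 ?_) ((gy (L i) (H i)).2 ?_),
    fun k => by fin_cases k <;> assumption⟩,
    g ∘ ![E i u, G i v, H i, L i], emb4 _ _ ((gx _ _).2 ?_) ((gx _ _).2 ?_)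
    ((gx _ _).2 ?_) ((gy (G i v) (L i)).2 ?_) ((gy (L i) (E i u)).2 ?_) ((gy (E i u) (H i)).2 ?_),
    fun k => by fin_cases k <;> assumption⟩ <;>
    simp only [X, Y, lt4, Matrix.cons_val_zero, Matrix.cons_val_one, Matrix.cons_val,
      true_and] <;> omega

instance (α β : P 4) (f : Fin 4 → Fin 4) : Decidable (Emb α β f) := by
  unfold Emb StrictMono; infer_instance

theorem result : Unavoidable p2413 ∧ Unavoidable p3142 := by
  refine ⟨⟨by unfold Avoids; decide +kernel, fun n ρ h => ?_⟩,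
    by unfold Avoids; decide +kernel, fun n ρ h => ?_⟩
  · obtain ⟨m, τ, a, b⟩ := main ρ h
    exact ⟨m, τ, a, fun c => (b c).imp_left And.left⟩
  · obtain ⟨m, τ, a, b⟩ := main ρ h
    exact ⟨m, τ, a, fun c => (b c).imp_left And.right⟩

end Pool.Agent.Results.MP_276eaf_co.Q2
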